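import Pool.Agent.MWL.Defs

/-!
# Block MWL: the rows

Notation in the proofs: `e_i` is the vector with the entry `1` in block `i`; `h` is an entry `≥ 2`;
`a ~ b` is `R.R k a b`; `ad n a i = a + 2n e_i`; `a` absorbs at `i`: `Ab n R k a i`.
A single entry vector on the block `0` is pushed to block `i` with the map `fun _ => i`; a vector
on two blocks is pushed to the blocks `p < q` with `fun j => if j = 0 then p else q` (both are
`BMap`s); then the rest of the vector is added with `FC.add`, and `FC.ext` fixes the values.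
-/

namespace Pool.Agent.MWL

open Pool.Agent.MVO Pool.Agent.Helper14_MV Pool.Agent.Helper2_MV

/-- **TRN** (uses nothing).  Transport of absorption.
PROOF.  (1) `a ~ b` gives `a + 2n e_i ~ b + 2n e_i` (`FC.add` with `fun j => if j = i then 2*n else 0`);
symmetry and transitivity.  (2) `FC.add` and `FC.ext` (commutativity).  (3) `FC.ext`.  (4) `FC.push`
and `FC.ext`: `psh k f (ad n a i) j = psh k f a j + (if j = f i then 2n else 0)` because the sum
splits (`Finset.sum_add_distrib`) and only the summand `i` contributes. -/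
def TrnStmt : Prop :=
  ∀ (n : ℕ) (R : FC) (k : ℕ) (a : ℕ → ℕ) (i : ℕ),
    (∀ b, R.R k a b → (Ab n R k a i ↔ Ab n R k b i)) ∧
    (∀ d : ℕ → ℕ, Ab n R k a i → Ab n R k (fun j => a j + d j) i) ∧
    (∀ b, (∀ j ≤ k, a j = b j) → (Ab n R k a i ↔ Ab n R k b i)) ∧
    (∀ (k' : ℕ) (f : ℕ → ℕ), BMap k k' f → i ≤ k → Ab n R k a i → Ab n R k' (psh k f a) (f i))

/-- **HVP** (uses nothing).  Heavy blocks absorb; period.
PROOF.  Second statement: `per` and `FC.add` give `(x) ~ (x+n)` for all `x ≥ 2` on the block `0`,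
hence `(x) ~ (y)` for all `x, y ≥ 2` with `x ≡ y [MOD n]` (write the larger one as the smaller one
plus a multiple of `n`, induction).  Push to block `i` and add `a` without its entry `i`.
First statement: if `2 ≤ a i`, this is the second statement with `c = a i + 2n` (then
`Function.update a i c` and `ad n a i` agree).  If `a i = 1`, there is `p < i` with `2 ≤ a p`:
`rr` and `rr + (0,n)` give `(2,1) ~ (2,n+1) ~ (2,2n+1)`; push `0 ↦ p`, `1 ↦ i` and add the rest
`a - 2e_p - e_i`. -/
def HvpStmt : Prop :=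
  ∀ (n : ℕ) (R : FC), LR n R → ∀ (k : ℕ) (a : ℕ → ℕ) (i : ℕ), i ≤ k →
    (Hv a i → Ab n R k a i) ∧
    (∀ c, 2 ≤ a i → 2 ≤ c → a i ≡ c [MOD n] → R.R k a (Function.update a i c))

/-- **ABS** (uses TRN, HVP).  Absorption in a set of blocks; vectors with the same normal form.
PROOF.  First: induction on `S`; if `a ~ a + 2n 1_S` and `i ∉ S`, `a` absorbs at `i`, then
`a + 2n 1_S` absorbs at `i` (TRN (2)), so `a ~ a + 2n 1_S ~ a + 2n 1_(S ∪ {i})`.
Second: let `S` be the set of all `j ≤ k` with `Hv a j ∧ Hv b j ∧ a j ≡ b j [MOD n]`.  By HVP and the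
first part `a ~ a + 2n 1_S` and `b ~ b + 2n 1_S`.  The two right sides are equal off `S` (on `0..k`)
and on `S` their entries are `≥ 2` and congruent: change the entries in `S` one after the other
with HVP (induction on a finite set). -/
def AbsStmt : Prop :=
  ∀ (n : ℕ) (R : FC), LR n R → ∀ (k : ℕ) (a : ℕ → ℕ),
    (∀ S : Finset ℕ, (∀ i ∈ S, Ab n R k a i) →
      R.R k a (fun j => a j + if j ∈ S then 2 * n else 0)) ∧
    (∀ b, Nq n k a b → R.R k a b)

/-- **KEY** (uses TRN, HVP, ABS).  Related vectors agree in every block where they do not absorb.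
PROOF.  By TRN (1) `a` and `b` absorb in the same blocks; let `S` be the set of these blocks
(`≤ k`).  Suppose `a i ≠ b i` for some `i ≤ k` with `i ∉ S`; take the smallest such `i`.  By HVP
(`¬ Hv a i`, `¬ Hv b i`) the entries `a i`, `b i` are `0` or `1`; exchange `a` and `b` so that `a i = 1`,
`b i = 0`.  If some `s ∈ S` is `< i`, then `a + 2n e_s` absorbs at `i` (it is heavy there), and
`a ~ a + 2n e_s`, so `i ∈ S`: contradiction.  So all elements of `S` are `> i`, and `a j = b j` for all
`j < i`.  Now `a + e_i` has the entry `2` in block `i`, so it absorbs at `i`; as `a + e_i ~ b + e_i`, also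
`b' := b + e_i` absorbs at `i`, and `b' = a` on `0..i`.
(A) `S` not empty, `p = min S > i`.  Let `f = id` on `0..i` and `f j = p` for `j > i`.  `psh k f b'`
absorbs at `i` (TRN (4)); it is equal to `a` on `0..i`, and `0` in the other blocks except `p`,
where it is some number `B`.  Add the vector which is `a j` for `j > i`, `j ≠ p`, and
`a p + 2n + (n-1) B` in block `p`: the sum absorbs at `i` and is equal to `a + 2n e_p` off `p` and
congruent to it mod `n` in the block `p` (both entries `≥ 2`), so by ABS it is related to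
`a + 2n e_p ~ a`.  So `a` absorbs at `i`: contradiction.
(B) `S` empty.  Then all entries of `a` and `b` on `0..k` are `≤ 1` (HVP).  Let `A`, `B` be the numbers of
blocks `j` with `i < j ≤ k` and `a j = 1`, `b j = 1`.
(B1) `B ≤ A`: let `f = id` on `0..i` and for `j > i`: `f j` = the `t`-th light block of `a` behind `i`, where
`t` = max(1, number of light blocks `j'` of `b` with `i < j' ≤ j`) (if `A = 0` let `f j = j`).  `f` is order
preserving, and `psh k f b'` is `≤ a` everywhere on `0..k` (equal on `0..i`; behind `i` the light blocks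
of `b` go to different light blocks of `a`).  Add the difference: `a` absorbs at `i`.
(B2) `1 ≤ A < B`: let `f = id` on `0..i` and for `j > i`: `f j` = the largest light block `≤ j` of `a` behind
`i`, or the first one if there is none.  `psh k f a = a`, and two light blocks of `b` go to the same
block `p`, so `psh k f b` has an entry `≥ 2` and absorbs at `p` (HVP); it is related to `psh k f a = a`:
`p ∈ S`, contradiction.
(B3) `A = 0`, `B ≥ 2`: the same with `f j = i + 1` for `j > i`.
(B4) `A = 0`, `B = 1`: if `a` has no light block `< i`, then `deg k a = 1` and `a = b` on `0..k` by `ND`,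
contradiction.  Let `j < i` be the last light block of `a` before `i` (it is also a light block of
`b`); `f = id` off `j..i`, `f = j` on `j..i`.  `psh k f a` has the entry `2` in block `j`, and
`psh k f b = b` (the entries of `b` in `j+1..i` are `0`).  So `b` is related to a vector which absorbs
at `j`: `j ∈ S`, contradiction. -/
def KeyStmt : Prop :=
  ∀ (n : ℕ) (R : FC), LR n R → ND R → ∀ (k : ℕ) (a b : ℕ → ℕ), R.R k a b → ∀ i ≤ k,
    ¬ Ab n R k a i → a i = b i

/-- **ARR** (uses TRN, HVP, ABS).  The arrows between the bits, and the meaning of `GG`.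
PROOF.  `E → F`: insert a block behind (push with `fun j => j`) and add `(0,0,2)`.  `G → F`: push with
`fun j => j + 1`, add `(2,0,0)`.  `G → D 0`: add `(1,0)`.  `D l → D (l+1)`: push with `fun j => j + 1`, add
`e_0`.  `J q → J (q+1)`: the same.  `J q → D (q-1)`: `(1,..,1)` (`q` ones) absorbs in its last block: push
with `fun j => j` to one more block, add `2 e_q` behind.
`GG`: let `g = (1,..,1,0,2)` with `l` ones.  `l = 0`: `g = (0,2)`, this is `G`.  `l ≥ 1`, from left to
right: merge block `l` with block `l-1` (`f j = j` for `j < l`, `f j = j - 1` for `j ≥ l`): `(1,..,1,2)` with `l`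
ones absorbs at `l-1`: `D (l-1)`.  Merge the first `l` blocks (`f j = 0` for `j < l`, `f j = j - l + 1` for
`j ≥ l`) and add `(2 + (n-1) * l, 0, 0)`: `(2 + n * l, 0, 2)` absorbs at `1`, and it is related to
`(2,0,2)` by ABS: `F` (TRN (1)).
From right to left: let `g1 = g + 2n e_(l-1)`; `g ~ g1` by `D (l-1)` (push `j ↦ j` for `j < l`, `l ↦ l+1`).  `g1`
absorbs at `l` by `F` (push `0 ↦ l-1`, `1 ↦ l`, `2 ↦ l+1`, add, ABS for the entry `l-1`).  So `g`
absorbs at `l` by TRN (1). -/
def ArrStmt : Prop :=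
  ∀ (n : ℕ) (R : FC), LR n R →
    (Has n R Bit.E → Has n R Bit.F) ∧ (Has n R Bit.G → Has n R Bit.F) ∧
    (Has n R Bit.G → Has n R (Bit.D 0)) ∧
    (∀ l, Has n R (Bit.D l) → Has n R (Bit.D (l + 1))) ∧
    (∀ q, 2 ≤ q → Has n R (Bit.J q) → Has n R (Bit.J (q + 1)) ∧ Has n R (Bit.D (q - 1))) ∧
    (∀ l, Ab n R (l + 1) (fun j => if j < l then 1 else if j = l then 0 else 2) l ↔ GG n R l)

/-- **TA1** (uses TRN, HVP, ABS, ARR).  The absorption table, vectors with a heavy block.
PROOF.  In all cases `←`: push the base vector of the bit to suitable blocks, add the rest of `a`,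
and use ABS to compare the entries mod `n`; `→`: push `a` to the blocks of the base vector, add
something to correct the heavy entries mod `n`, and use ABS and TRN (1).  In detail:
(1) `p < i < q`, `a i = 0`, `2 ≤ a p`, `a q ≠ 0`.  `→`: `f = 0` on `0..i-1`, `f i = 1`, `f = 2` behind: `psh k f a`
has a first entry `≥ 2`, the entry `0`, and a last entry `≥ 1` (heavy); add `x e_0 + y e_2` with
entries `≡ 2` and `≥ 2`: related to `(2,0,2)`.  `←`: `F` pushed to `p < i < q`: `2e_p + 2e_q` absorbs at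
`i`; add the vector `a - 2e_p` in the blocks `≠ q` and `a q + 2n - 2` in block `q`: the sum is
`a + 2n e_q`, related to `a` by ABS (block `q` is heavy in both).
(2) the same with `E`: nothing behind `i`, `f = 0` on `0..i-1`, `f i = 1`, and behind `i` (all entries `0`)
`f = 1`.
(3) no block `≤ i` with an entry `≥ 2`, `2 ≤ a q`, `i < q ≤ k`, `a i = 0`; `l = lb a i` non-empty blocks
before `i`, all with the entry `1`.  `→`: `f j` = `lb a j` for `j ≤ i` (the number of non-empty blocks `< j`),
but block numbers of empty blocks have to be corrected: a zero block `j < i` may go to `lb a j` (this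
is the place of the next light block, or `l`), and `i` goes to `l`, everything behind to `l + 1`.
`psh k f a` = `(1,..,1,0,h)`; correct the last entry mod `n`: `GG` by ARR.  `←`: push `(1,..,1,0,2)` with
the increasing map which sends `0,..,l-1` to the light blocks of `a` before `i`, `l` to `i`, `l+1` to `q`;
add the rest (for `q`: `a q + 2n - 2`), ABS.
(4) as (3), with `a i = 1`: `D l`. -/
def Ta1Stmt : Prop :=
  ∀ (n : ℕ) (R : FC), LR n R → ∀ (k : ℕ) (a : ℕ → ℕ) (i : ℕ), i ≤ k →
    (a i = 0 → (∃ p < i, 2 ≤ a p) → (∃ q, i < q ∧ q ≤ k ∧ a q ≠ 0) →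
      (Ab n R k a i ↔ Has n R Bit.F)) ∧
    (a i = 0 → (∃ p < i, 2 ≤ a p) → (∀ q, i < q → q ≤ k → a q = 0) →
      (Ab n R k a i ↔ Has n R Bit.E)) ∧
    (a i = 0 → (∀ p ≤ i, a p ≤ 1) → (∃ q, i < q ∧ q ≤ k ∧ 2 ≤ a q) →
      (Ab n R k a i ↔ GG n R (lb a i))) ∧
    (a i = 1 → (∀ p ≤ i, a p ≤ 1) → (∃ q, i < q ∧ q ≤ k ∧ 2 ≤ a q) →
      (Ab n R k a i ↔ Has n R (Bit.D (lb a i))))

/-- **TA2** (uses TRN, HVP, ABS, ARR, TA1).  The absorption table, light vectors.  Let all entries
of `a` on `0..k` be `≤ 1`, `q = deg k a ≥ 2`, `l = lb a i`, and `j` = the last light block of `a`.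
PROOF.  FACT: `a` absorbs at `j` iff `J q` (`→`: delete the zero blocks: push with the map `j' ↦ lb a j'`
(zero blocks behind `j` go to `q - 1`); `←`: push the base vector to the light blocks).
(1) `a i = 1`.  `→`: `a ~ a + 2n e_i`, and the latter absorbs at `j` (heavy, HVP), so `a` absorbs at `j`:
`J q`.  If `i = j` then `l = q - 1` and `D l` follows by ARR; if `i < j`, add `e_j` (entry `2` at `j`): TA1
(4): `D l`.  `←`: if `i = j`: FACT.  Else `a ~ a' := a + 2n e_j` by `J q`; `a'` absorbs at `i` by TA1 (4) and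
`D l`; TRN (1).
(2) `a i = 0`, `i < j`.  `→`: `a ~ a + 2n e_i`, which absorbs at `j` (HVP), so `a` absorbs at `j`: `J q`; and
`a ~ a' := a + 2n e_j` absorbs at `i`: `GG l` by TA1 (3).  `←`: the same backwards.
(3) `a i = 0`, `j < i`.  `→`: push `a ~ a + 2n e_i` with the map which sends `j..i` to `j`: `a` absorbs at
`j` (`psh k f a = a`), so `J q`; then `a + 2n e_j ~ a` absorbs at `i`: `E` by TA1 (2).  `←`: `a ~ a + 2n e_j`
by `J q` and `a + 2n e_j` absorbs at `i` by `E` and TA1 (2); TRN (1). -/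
def Ta2Stmt : Prop :=
  ∀ (n : ℕ) (R : FC), LR n R → ∀ (k : ℕ) (a : ℕ → ℕ) (i : ℕ), i ≤ k → (∀ p ≤ k, a p ≤ 1) →
    2 ≤ deg k a →
    (a i = 1 → (Ab n R k a i ↔ Has n R (Bit.J (deg k a)) ∧ Has n R (Bit.D (lb a i)))) ∧
    (a i = 0 → (∃ q, i < q ∧ q ≤ k ∧ a q ≠ 0) →
      (Ab n R k a i ↔ Has n R (Bit.J (deg k a)) ∧ GG n R (lb a i))) ∧
    (a i = 0 → (∀ q, i < q → q ≤ k → a q = 0) →
      (Ab n R k a i ↔ Has n R (Bit.J (deg k a)) ∧ Has n R Bit.E))

/-- **TAB** (uses HVP, TA1, TA2).  Absorption is a conjunction of bits, the same for all `n`, `R`.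
PROOF.  Cases: `Hv a i`: the empty list (HVP).  `a i = 0` and an entry `≥ 2` before `i`: `[F]` or `[E]`
(TA1 (1), (2)).  No entry `≥ 2` in `0..i` (so `a i ≤ 1`), an entry `≥ 2` behind: `a i = 0`: the list of
`GG (lb a i)`, which is `[G]` or `[D (lb a i - 1), F]`; `a i = 1`: `[D (lb a i)]`.  No entry `≥ 2` at all:
TA2. -/
def TabStmt : Prop :=
  ∀ (k : ℕ) (a : ℕ → ℕ) (i : ℕ), i ≤ k → 2 ≤ deg k a →
    ∃ L : List Bit, (∀ β ∈ L, β.ok) ∧
      ∀ (n : ℕ) (R : FC), LR n R → (Ab n R k a i ↔ ∀ β ∈ L, Has n R β)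

/-- **DMX** (uses HVP).  The two divisors exist.
PROOF.  (d) `C = {c : (2) ~ (2+c)}` contains `0` and `n` and is closed under addition (`(2) ~ (2+c')`
and `(2+c') ~ (2+c+c')`), and `c ∈ C`, `c ≡ c' [MOD n]` gives `c' ∈ C` (HVP).  So for `c, c' ∈ C` with
`c' ≤ c` also `c - c' ∈ C` (it is `≡ c + (n-1) c'`).  Let `d` be the smallest positive element
(`Nat.find`, `n` is one): division with remainder: `C` = multiples of `d`.  (m) the same for
`C' = {c : (2+c,2) ~ (2,2+c)}`: closed under addition: `(2+c+c',2) ~ (2+c',2+c) ~ (2,2+c'+c)`;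
`n ∈ C'` and invariance mod `n` by HVP; `d ∈ C'`: `(2+d,2) ~ (2,2) ~ (2,2+d)` by pushing and adding;
`m ∣ d`, `d ∣ n`. -/
def DmxStmt : Prop := ∀ (n : ℕ) (R : FC), LR n R → ∃ d m, DM n R d m

/-- **RMV** (uses HVP).  Moves of residues.
PROOF.  (1) `i < j`: push `v2 (2+c) 2 ~ v2 2 (2+c)` with `0 ↦ i`, `1 ↦ j`, add `a - 2e_i - 2e_j`; `j < i`: the
same and symmetry.  (2) push `(2) ~ (2+c)` to `i`, add `a - 2e_i`.
(3) necessity of the congruences.  First `k = 0`: let `(A) ~ (B)`; add `2 + (n-1) A`: `(2 + nA) ~ (2 + c)` with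
`c = (n-1) A + B`, and `(2+nA) ~ (2)` by HVP: `d ∣ c`, so `A ≡ B [MOD d]` as `d ∣ n`.  The degree: push to one
block.  Then `k = 1`: `(x,y) ~ (x',y')`, so `x + y ≡ x' + y' [MOD d]`.  Add a vector to make all entries `≥ 2`.
Choose `D` with `x' + y' + D ≡ x + y [MOD n]`, `d ∣ D` (the difference is divisible by `d` and `d ∣ n`):
`(x',y') ~ (x',y'+D)` by (2).  Choose `c` with `x' + c ≡ x [MOD n]`; then `y + c ≡ y' + D`.. so by HVP
`(x'+c,y) ~ (x,y) ~ (x',y'+D) ~ (x',y+c)`; add a vector so that `x'` becomes `≡ 2` and `y` becomes `≡ 2`: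
`(2+c,2) ~ (2,2+c)`, so `m ∣ c`, and `m ∣ n` gives `x ≡ x' [MOD m]`.  In general: for `j ≤ k` push to two
blocks with `f i = 0` for `i ≤ j`, `1` behind: the sums over `0..j` are congruent mod `m`; the same for
`j - 1`; subtract. -/
def RmvStmt : Prop :=
  ∀ (n : ℕ) (R : FC) (d m : ℕ), LR n R → DM n R d m → ∀ (k : ℕ) (a : ℕ → ℕ),
    (∀ i j c, i ≤ k → j ≤ k → i ≠ j → 2 ≤ a i → 2 ≤ a j → m ∣ c →
      R.R k (fun t => a t + if t = i then c else 0) (fun t => a t + if t = j then c else 0)) ∧
    (∀ i c, i ≤ k → 2 ≤ a i → d ∣ c → R.R k a (fun t => a t + if t = i then c else 0)) ∧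
    (∀ b, R.R k a b → (∀ j ≤ k, a j ≡ b j [MOD m]) ∧ deg k a ≡ deg k b [MOD d])

/-- **CLO** (uses TRN, HVP, ABS, RMV).  Vectors which agree off a set of absorbing blocks and have
the right residues are related.
PROOF.  By ABS `a ~ a + 2n 1_S` and `b ~ b + 2n 1_S`; so we may assume that all entries of `a` and `b` in
`S` are `≥ 2` (the hypotheses stay true).  If `S` is empty: `FC.ext`.  Else let `s = max S`.  For
`i ∈ S`, `i ≠ s`, choose `c` with `m ∣ c`, `a i + c ≡ b i [MOD n]` (possible as `m ∣ n`, `a i ≡ b i [MOD m]`);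
then `a ~ a + n c e_s`.. precisely: `a + c e_i ~ a + c e_s` by RMV (1), add `(n-1) c e_s`: `a + c e_i + (n-1) c e_s
~ a + n c e_s ~ a` (HVP).  So we can make the entry `i` congruent mod `n` to `b i`, changing only the
entry `s` otherwise; the congruences mod `m` and the degree mod `d` stay true (`m ∣ c`, degree change
`n c`).  Then change the entry to `b i` by HVP.  After all `i ≠ s` the vectors differ only in `s`, and
the degree gives `a s ≡ b s [MOD d]`: RMV (2) and HVP. -/
def CloStmt : Prop :=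
  ∀ (n : ℕ) (R : FC) (d m : ℕ), LR n R → DM n R d m → ∀ (k : ℕ) (a b : ℕ → ℕ) (S : Finset ℕ),
    (∀ i ∈ S, i ≤ k ∧ Ab n R k a i ∧ Ab n R k b i) → (∀ i ≤ k, i ∉ S → a i = b i) →
      (∀ j ≤ k, a j ≡ b j [MOD m]) → deg k a ≡ deg k b [MOD d] → R.R k a b

/-- **CHR** (uses TRN, KEY, RMV, CLO).  The structure of a functorial congruence.
PROOF.  `→`: TRN (1), KEY, RMV (3).  `←`: CLO with `S` = the set of all `i ≤ k` where `a` absorbs. -/
def ChrStmt : Prop :=
  ∀ (n : ℕ) (R : FC) (d m : ℕ), LR n R → ND R → DM n R d m → ∀ (k : ℕ) (a b : ℕ → ℕ),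
    (R.R k a b ↔ (∀ i ≤ k, (Ab n R k a i ↔ Ab n R k b i)) ∧ (∀ i ≤ k, ¬ Ab n R k a i → a i = b i) ∧
      (∀ j ≤ k, a j ≡ b j [MOD m]) ∧ deg k a ≡ deg k b [MOD d])

/-- **FLB** (uses KEY, TRN, TAB, RMV, CLO).  A functorial congruence is determined by its bits and
divisors.
PROOF.  Let `R.R k a b`.  If `deg k a ≤ 1` or `deg k b ≤ 1`: `ND` (and symmetry) gives `a = b` on `0..k`.  Else
let `S` be the set of all `i ≤ k` where `a` absorbs in `R`; `b` absorbs there too.  By TAB (list of bits
for `(k,a,i)`, for `(k,b,i)`) and the hypothesis both absorb in `T` on `S`; off `S` they agree (KEY); the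
congruences mod `m`, `d` hold by RMV (3) for `R`, hence mod `m'`, `d'`.  CLO for `T`. -/
def FlbStmt : Prop :=
  ∀ (n : ℕ) (R T : FC) (d m d' m' : ℕ), LR n R → LR n T → ND R → DM n R d m → DM n T d' m' →
    d' ∣ d → m' ∣ m → (∀ β : Bit, β.ok → Has n R β → Has n T β) → FLe R T

/-- **PRM** (uses HVP, ARR, TA1, TA2).  The base vectors are minimal: if the base vector of a bit
absorbs in any block which is not heavy, then the bit holds.
PROOF.  `E`, `F`, `G`: the only block which is not heavy is `β.i`.  `D l`: the block `l + 1` is heavy, and for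
`j ≤ l` TA1 (4) with `lb a j = j` gives `D j`, then ARR gives `D l` (induction).  `J q`: TA2 (1). -/
def PrmStmt : Prop :=
  ∀ (n : ℕ) (R : FC), LR n R → ∀ β : Bit, β.ok → ∀ j ≤ β.k, Ab n R β.k β.a j →
    Hv β.a j ∨ Has n R β

/-- **JPR** (uses TRN, HVP, ABS, KEY, PRM).  The bits are join prime.
PROOF.  Let `a = β.a`, `k = β.k`, `H` = the set of all `j ≤ k` with `Hv a j`.  Suppose neither `R` nor `S` has
the bit.  By PRM, `R` and `S` absorb `a` only in blocks of `H`.  CLAIM: every `c` in the chain from `a`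
satisfies `c j = a j` for all `j ≤ k`, `j ∉ H`.  Step `c Q c'` with `Q = R` or `S`: let `c1 = c + 2n 1_H`,
`c1' = c' + 2n 1_H`; `Q.R k c1 c1'`.  If `Q` absorbs `c1` at `j ≤ k`, then also `a` at `j`: add to `c1` the vector
with the entries `(n-1) (c1 t) + a t` for `t ∈ H` and `0` elsewhere; the sum is `a` off `H` and `≡ a t` in
`t ∈ H` with entries `≥ 2` there, so it is `Nq`-equal to `a` (ABS); TRN (2), (1).  So for `j ≤ k`, `j ∉ H`,
`Q` does not absorb `c1` at `j`, and KEY gives `c1 j = c1' j`, so `c' j = c j = a j`.  At the end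
`c = ad n a β.i` has a different entry in `β.i`, and `β.i ∉ H`: contradiction. -/
def JprStmt : Prop :=
  ∀ (n : ℕ) (R S : FC), LR n R → LR n S → ND R → ND S → ∀ β : Bit, β.ok →
    Jn R S β.k β.a (ad n β.a β.i) → Has n R β ∨ Has n S β

/-- **JFC** (uses RMV).  Join and meet are functorial congruences; residues in the join.
PROOF.  (1) `Jn R S k` is reflexive, symmetric, transitive; `ext`: if `a, a'` agree on `0..k`, then
`R.R k a a'` (`FC.ext` and `FC.refl`); `add`, `push`: step by step (`Relation.ReflTransGen.lift`).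
(2) intersection: clear.  (3) step by step by RMV (3) and `Nat.ModEq.of_dvd`. -/
def JfcStmt : Prop :=
  ∀ (R S : FC), (∃ J : FC, ∀ k a b, J.R k a b ↔ Jn R S k a b) ∧
    (∃ I : FC, ∀ k a b, I.R k a b ↔ (R.R k a b ∧ S.R k a b)) ∧
    ∀ (n d m d' m' : ℕ), LR n R → LR n S → DM n R d m → DM n S d' m' → ∀ (k : ℕ) (a b : ℕ → ℕ),
      Jn R S k a b → (∀ j ≤ k, a j ≡ b j [MOD (Nat.gcd m m')]) ∧
        deg k a ≡ deg k b [MOD (Nat.gcd d d')]

/-- **LAW** (uses DMX, FLB, JPR, JFC).  The distributive law for one letter words.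
PROOF.  Let `J` be the join of `R` and `S`, `I` the meet of `J` and `T` (JFC); both satisfy `LR n`, and `I`
satisfies `ND` because `T` does.  Show `FLe I U` with FLB.  Bits: `Has n I β` gives `Has n J β` and `Has n T β`; by JPR `Has n R β` or `Has n S β`; so `Has n U β` by the
hypothesis.  Divisors (DMX for `R`, `S`, `T`, `U`, `I`): let `(dR,mR)`, .. be the divisors.  `lcm dR dT` gives a
relation of `R` and `T`, so of `U`: `dU ∣ lcm dR dT`, and `dU ∣ lcm dS dT`.  `(2) ~ (2+dI)` in `I`: `dT ∣ dI` and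
`gcd dR dS ∣ dI` (JFC (3)).  So `dU ∣ gcd (lcm dR dT) (lcm dS dT) ∣ lcm (gcd dR dS) dT ∣ dI`; the middle step
is the distributive law of divisibility for positive numbers (`Nat.factorization_gcd`,
`Nat.factorization_lcm`, `(Nat.factorization_le_iff_dvd ..).1`, pointwise `inf_sup_right`).  The same for
the `m`. -/
def LawStmt : Prop :=
  ∀ (n : ℕ) (R S T U : FC), LR n R → LR n S → LR n T → LR n U → ND R → ND S → ND T →
    (∀ k a b, R.R k a b → T.R k a b → U.R k a b) → (∀ k a b, S.R k a b → T.R k a b → U.R k a b) →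
      ∀ (k : ℕ) (a b : ℕ → ℕ), T.R k a b → Jn R S k a b → U.R k a b

/-- **STP** (uses TRN, KEY, ABS).  Every one letter relation is a chain of elementary steps.
PROOF.  Let `S` = the set of all `i ≤ k` where `a` absorbs (= where `b` absorbs).  Add `2n` in the blocks of
`S` one after the other, to `a` and to `b` (TRN (2) gives the absorption in the next block).  The last
two vectors are related (ABS) and have the same shape: off `S` they agree by KEY, on `S` the entries are
`≥ 2n ≥ 2`.  (The relation `El` is symmetric because `Sh` and `R.R` are.) -/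
def StpStmt : Prop :=
  ∀ (n : ℕ) (R : FC), LR n R → ND R → ∀ (k : ℕ) (a b : ℕ → ℕ), R.R k a b →
    Relation.ReflTransGen (El n R k) a b

/-- **REV** (uses nothing).  The reversed functorial congruence.
PROOF.  `push`: for a `BMap k k' f` let `f' j = k' - f (k - j)`; it is a `BMap k k'`, and for `j ≤ k'`:
`psh k f a (k' - j) = psh k f' (fun t => a (k - t)) j` (`Finset.sum_range_reflect`). -/
def RevStmt : Prop :=
  ∀ R : FC, ∃ R' : FC, ∀ (k : ℕ) (a b : ℕ → ℕ),
    R'.R k a b ↔ R.R k (fun j => a (k - j)) (fun j => b (k - j))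

/-- **NDF** (uses nothing).  When is the one letter part of a fully invariant congruence
non-degenerate.
PROOF.  Let `L1 ρ k a b`, `deg k a ≤ 1`.  Delete the simple letters (substitution `2,..,k+1 ↦ []`, or
`FC.push` to one block): `x^(deg a) ≈ x^(deg b)`.  `deg a = 0`: if `deg b ≥ 1` multiply by `x`:
`x ≈ x^(deg b + 1)`, excluded; so `b = 0` on `0..k`.  `deg a = 1`: `deg b = 1` by the second hypothesis.  If
the letter is in the blocks `p ≠ q`, say `p < q`: `FC.push` with `f j = 0` for `j ≤ p`, `1` behind: the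
identity `x t ≈ t x`, i.e. `RR ρ [0,2] [2,0]`; rename: excluded. -/
def NdfStmt : Prop :=
  ∀ ρ : FIC, ¬ RR ρ [0, 1] [1, 0] → (∀ j, j ≠ 1 → ¬ RR ρ [0] (List.replicate j 0)) →
    ND (FC.ofFIC ρ)

end Pool.Agent.MWL
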