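import Pool.Agent.MVO.Push
import Pool.Agent.MVO.StmtsL

/-!
# One letter words over `x² t x ≈ x² t x^(n+1)` (definitions)

Block MWL of the full answer to MP_23468a_al (note 3909 of helper71).  Everything is about
functorial congruences `FC` of `Pool.Agent.MVO.Defs`: equivalence relations on vectors
`a : ℕ → ℕ` (only the values on `0..k` matter), closed under adding vectors and under order
preserving maps of the blocks.
-/

namespace Pool.Agent.MWL

open Pool.Agent.MVO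

/-- add `2 n` to the entry `i` -/
def ad (n : ℕ) (a : ℕ → ℕ) (i : ℕ) : ℕ → ℕ := fun j => a j + if j = i then 2 * n else 0

/-- `a` absorbs `2 n` in block `i` -/
def Ab (n : ℕ) (R : FC) (k : ℕ) (a : ℕ → ℕ) (i : ℕ) : Prop := R.R k a (ad n a i)

/-- the identities `x² ≈ x^(n+2)` and `x² t x ≈ x² t x^(n+1)` -/
structure LR (n : ℕ) (R : FC) : Prop where
  pos : 1 ≤ n
  per : R.R 0 (sg 0 2) (sg 0 (n + 2))
  rr : R.R 1 (v2 2 1) (v2 2 (n + 1))

/-- vectors of degree at most one are isolated -/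
def ND (R : FC) : Prop := ∀ (k : ℕ) (a b : ℕ → ℕ), R.R k a b → deg k a ≤ 1 → ∀ j ≤ k, a j = b j

/-- block `i` is heavy: it is not empty and some block `p ≤ i` has at least two letters -/
def Hv (a : ℕ → ℕ) (i : ℕ) : Prop := a i ≠ 0 ∧ ∃ p ≤ i, 2 ≤ a p

/-- the same vector up to multiples of `n` in heavy blocks -/
def Nq (n k : ℕ) (a b : ℕ → ℕ) : Prop :=
  ∀ j ≤ k, a j = b j ∨ (Hv a j ∧ Hv b j ∧ a j ≡ b j [MOD n])

/-- the same shape: the entries are equal or both at least two -/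
def Sh (k : ℕ) (a b : ℕ → ℕ) : Prop := ∀ j ≤ k, a j = b j ∨ (2 ≤ a j ∧ 2 ≤ b j)

/-- the number of non-empty blocks before block `i` -/
def lb (a : ℕ → ℕ) (i : ℕ) : ℕ := ((Finset.range i).filter (fun j => a j ≠ 0)).card

/-- the primitive bits -/
inductive Bit where
  | E : Bit
  | F : Bit
  | G : Bit
  | D : ℕ → Bit
  | J : ℕ → Bit

/-- admissible bits: in `J q` we need `2 ≤ q` -/
def Bit.ok : Bit → Prop
  | Bit.J q => 2 ≤ q
  | _ => True

/-- the last block of the base vector of a bit -/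
def Bit.k : Bit → ℕ
  | Bit.E => 1
  | Bit.F => 2
  | Bit.G => 1
  | Bit.D l => l + 1
  | Bit.J q => q - 1

/-- the base vector of a bit: `E`: `(h,0)`, `F`: `(h,0,h)`, `G`: `(0,h)`, `D l`: `(1,..,1,1,h)` with
`l + 1` ones, `J q`: `(1,..,1)` with `q` ones -/
def Bit.a : Bit → ℕ → ℕ
  | Bit.E => v2 2 0
  | Bit.F => v3 2 0 2
  | Bit.G => v2 0 2
  | Bit.D l => fun j => if j ≤ l then 1 else 2
  | Bit.J _ => fun _ => 1

/-- the block where the base vector of a bit absorbs -/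
def Bit.i : Bit → ℕ
  | Bit.E => 1
  | Bit.F => 1
  | Bit.G => 0
  | Bit.D l => l
  | Bit.J q => q - 1

/-- `R` has the bit -/
def Has (n : ℕ) (R : FC) (β : Bit) : Prop := Ab n R β.k β.a β.i

/-- `(1,..,1,0,h)` with `l` ones absorbs in block `l`: this is `G` for `l = 0`, and `D (l-1)`
together with `F` for `l ≥ 1` -/
def GG (n : ℕ) (R : FC) (l : ℕ) : Prop :=
  if l = 0 then Has n R Bit.G else Has n R (Bit.D (l - 1)) ∧ Has n R Bit.F

/-- the two divisors: `d` belongs to `x² ≈ x^(2+d)`, `m` to `x^(2+m) t x² ≈ x² t x^(2+m)` -/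
structure DM (n : ℕ) (R : FC) (d m : ℕ) : Prop where
  md : m ∣ d
  dn : d ∣ n
  hd : ∀ c, R.R 0 (sg 0 2) (sg 0 (2 + c)) ↔ d ∣ c
  hm : ∀ c, R.R 1 (v2 (2 + c) 2) (v2 2 (2 + c)) ↔ m ∣ c

/-- the join of two functorial congruences on the vectors on `0..k` -/
def Jn (R S : FC) (k : ℕ) : (ℕ → ℕ) → (ℕ → ℕ) → Prop :=
  Relation.ReflTransGen (fun a b => R.R k a b ∨ S.R k a b)

/-- one elementary step -/
def El (n : ℕ) (R : FC) (k : ℕ) (c c' : ℕ → ℕ) : Prop :=
  (∃ i ≤ k, Ab n R k c i ∧ c' = ad n c i) ∨ (∃ i ≤ k, Ab n R k c' i ∧ c = ad n c' i) ∨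
    (R.R k c c' ∧ Sh k c c')

end Pool.Agent.MWL
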